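import Mathlib
import Pool.Agent.U180.NG.Stm2

/-!
Project NG, part 2 (helper180), package LINT (helper7): the mean width of a segment.
-/

set_option autoImplicit false

namespace Pool.Agent.U7.NG

open MeasureTheory Set Real
open Pool.Agent.U180.NG

theorem sin_image : Real.sin '' Ioo (-(π / 2)) (π / 2) = Ioo (-1) 1 := by
  ext y
  constructor
  · rintro ⟨x, hx, rfl⟩
    constructor
    · have := Real.strictMonoOn_sin (a := -(π / 2)) (b := x)
        ⟨le_rfl, by linarith [Real.pi_pos]⟩ ⟨hx.1.le, hx.2.le⟩ hx.1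
      simpa using this
    · have := Real.strictMonoOn_sin (a := x) (b := π / 2) ⟨hx.1.le, hx.2.le⟩
        ⟨by linarith [Real.pi_pos], le_rfl⟩ hx.2
      simpa using this
  · intro hy
    exact ⟨Real.arcsin y, ⟨Real.neg_pi_div_two_lt_arcsin.2 hy.1,
      Real.arcsin_lt_pi_div_two.2 hy.2⟩, Real.sin_arcsin hy.1.le hy.2.le⟩

theorem subst (d w : ℝ) : (∫ s in (-1 : ℝ)..1, max 0 (d - w * s / Real.sqrt (1 - s ^ 2))) =
    ∫ θ in (-(π / 2))..(π / 2), max 0 (d * Real.cos θ - w * Real.sin θ) := by
  have hpi := Real.pi_pos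
  rw [intervalIntegral.integral_of_le (by norm_num), intervalIntegral.integral_of_le (by linarith),
    integral_Ioc_eq_integral_Ioo, integral_Ioc_eq_integral_Ioo, ← sin_image]
  rw [integral_image_eq_integral_abs_deriv_smul (f' := Real.cos) measurableSet_Ioo
    (fun x _ => (Real.hasDerivAt_sin x).hasDerivWithinAt)
    (Real.injOn_sin.mono Ioo_subset_Icc_self)]
  refine setIntegral_congr_fun measurableSet_Ioo fun x hx => ?_
  have hc : 0 < Real.cos x := Real.cos_pos_of_mem_Ioo hx
  have hs : Real.sqrt (1 - Real.sin x ^ 2) = Real.cos x := by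
    rw [← Real.cos_sq', Real.sqrt_sq hc.le]
  simp only [hs, smul_eq_mul, abs_of_pos hc]
  rw [mul_max_of_nonneg _ _ hc.le, mul_zero]
  congr 1
  field_simp

theorem abs_cos_periodic : Function.Periodic (fun x : ℝ => |Real.cos x|) π := by
  intro x
  simp [Real.cos_add_pi]

theorem int_abs_cos : ∫ x in (-(π / 2))..(π / 2), |Real.cos x| = 2 := by
  have h : ∫ x in (-(π / 2))..(π / 2), |Real.cos x| = ∫ x in (-(π / 2))..(π / 2), Real.cos x := by
    refine intervalIntegral.integral_congr fun x hx => ?_
    rw [uIcc_of_le (by linarith [Real.pi_pos])] at hx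
    exact abs_of_nonneg (Real.cos_nonneg_of_mem_Icc hx)
  rw [h, integral_cos]
  simp
  norm_num

theorem int_abs (d w : ℝ) : ∫ θ in (-(π / 2))..(π / 2), |d * Real.cos θ - w * Real.sin θ| =
    2 * Real.sqrt (d ^ 2 + w ^ 2) := by
  obtain ⟨φ, h1, h2⟩ : ∃ φ : ℝ, d = Real.sqrt (d ^ 2 + w ^ 2) * Real.cos φ ∧
      w = Real.sqrt (d ^ 2 + w ^ 2) * Real.sin φ := by
    refine ⟨Complex.arg ⟨d, w⟩, ?_, ?_⟩
    · have := Complex.norm_mul_cos_arg ⟨d, w⟩
      rw [Complex.norm_def, Complex.normSq_mk] at this
      rw [pow_two, pow_two]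
      exact this.symm
    · have := Complex.norm_mul_sin_arg ⟨d, w⟩
      rw [Complex.norm_def, Complex.normSq_mk] at this
      rw [pow_two, pow_two]
      exact this.symm
  set r := Real.sqrt (d ^ 2 + w ^ 2) with hr
  have hr0 : 0 ≤ r := Real.sqrt_nonneg _
  have e : ∀ θ : ℝ, |d * Real.cos θ - w * Real.sin θ| = r * |Real.cos (θ + φ)| := by
    intro θ
    have : d * Real.cos θ - w * Real.sin θ = r * Real.cos (θ + φ) := by
      rw [Real.cos_add]
      linear_combination (Real.cos θ) * h1 - (Real.sin θ) * h2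
    rw [this, abs_mul, abs_of_nonneg hr0]
  simp only [e]
  rw [intervalIntegral.integral_const_mul, intervalIntegral.integral_comp_add_right
    (fun x => |Real.cos x|)]
  have := abs_cos_periodic.intervalIntegral_add_eq (-(π / 2) + φ) (-(π / 2))
  have e1 : -(π / 2) + φ + π = π / 2 + φ := by ring
  have e2 : -(π / 2) + π = π / 2 := by ring
  rw [e1, e2, int_abs_cos] at this
  rw [this]
  ring

/-- LINT -/
theorem t_LINT : S_LINT := by
  intro d w
  rw [subst d w, subst (-d) w]
  have h1 : ∫ θ in (-(π / 2))..(π / 2), max 0 (-d * Real.cos θ - w * Real.sin θ) =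
      ∫ θ in (-(π / 2))..(π / 2), max 0 (-(d * Real.cos θ - w * Real.sin θ)) := by
    have := intervalIntegral.integral_comp_neg (a := -(π / 2)) (b := π / 2)
      (fun θ => max 0 (-d * Real.cos θ - w * Real.sin θ))
    rw [neg_neg] at this
    rw [← this]
    refine intervalIntegral.integral_congr fun θ _ => ?_
    simp only [Real.cos_neg, Real.sin_neg]
    congr 1
    ring
  rw [h1, ← intervalIntegral.integral_add]
  · rw [← int_abs]
    refine intervalIntegral.integral_congr fun θ _ => ?_
    rcases le_total 0 (d * Real.cos θ - w * Real.sin θ) with h | h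
    · rw [max_eq_right h, max_eq_left (by linarith), abs_of_nonneg h, add_zero]
    · rw [max_eq_left h, max_eq_right (by linarith), abs_of_nonpos h, zero_add]
  · exact Continuous.intervalIntegrable (by fun_prop) _ _
  · exact Continuous.intervalIntegrable (by fun_prop) _ _

end Pool.Agent.U7.NG

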